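import Pool.Agent.H422R3.T4O.Final

/-!
# Turán's (3,4)-conjecture for 3-graphs with a free elementary abelian 2-group with four orbits
-/

namespace Pool.Agent.Results.MP_466853_co.FourOrbits

open MulAction

/-- `G` is a 3-graph in which every four vertices span an edge. -/
def Covering {V : Type} [DecidableEq V] (G : Finset (Finset V)) : Prop :=
  (∀ e ∈ G, e.card = 3) ∧ ∀ a b c d : V, a ≠ b → a ≠ c → a ≠ d → b ≠ c → b ≠ d → c ≠ d →
    {a, b, c} ∈ G ∨ {a, b, d} ∈ G ∨ {a, c, d} ∈ G ∨ {b, c, d} ∈ G

/-- `H` is a group in which every element has order at most `2`; it acts freely on `V` with exactly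
four orbits, and `G` is invariant under the action. -/
def Symmetric (H V : Type) [Group H] [MulAction H V] [DecidableEq V] (G : Finset (Finset V)) :
    Prop :=
  (∀ a : H, a * a = 1) ∧ (∀ (a : H) (x : V), a • x = x → a = 1) ∧
    Nat.card (orbitRel.Quotient H V) = 4 ∧
    ∀ (a : H) (e : Finset V), e ∈ G → e.image (fun x => a • x) ∈ G

theorem result :
    ∀ (V H : Type) [Fintype V] [DecidableEq V] [Group H] [Fintype H] [MulAction H V]
      (G : Finset (Finset V)), Covering G → Symmetric H V G →
      59 * Fintype.card H ^ 3 + 16 * Fintype.card H ≤ 12 * G.card + 63 * Fintype.card H ^ 2 := by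
  intro V H _ _ _ _ _ G hcov hsym
  exact Pool.Agent.H422R3.T4O.four hsym.1 hsym.2.1 hsym.2.2.1 G hcov.1 hcov.2 hsym.2.2.2

end Pool.Agent.Results.MP_466853_co.FourOrbits
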