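import Pool.Agent.H838R3.TuranRefl2

/-!
# Turán's (3,4)-problem: covering 3-graphs and involutions of the vertex set

Let `G` be a 3-graph on `n` vertices in which every four vertices contain an edge. If `τ` is an
involution of the vertex set, `x, τ x, z, τ z` are four different vertices and `G` is invariant
under `τ`, then `{x, τ x, z}` or `{z, τ z, x}` is an edge. Summing over a family of involutions
which exchange every pair of vertices equally often gives at least (asymptotically) half of all
triples, more than Turán's `4/9`. The first part is a general inequality, which holds for every `G`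
and contains an error term counting the edges on which the symmetry fails.
-/

set_option autoImplicit false

open Finset

namespace Pool.Agent.Results.MP_466853_co.InvolutiveSymmetries

/-- `G` is a 3-graph in which every four vertices contain an edge. -/
def Covering {V : Type} [DecidableEq V] (G : Finset (Finset V)) : Prop :=
  (∀ e ∈ G, e.card = 3) ∧ ∀ S : Finset V, S.card = 4 → ∃ e ∈ G, e ⊆ S

/-- The edges of `G` which contain two points exchanged by `τ` and are not mapped to an edge. -/
def broken {V : Type} [DecidableEq V] (G : Finset (Finset V)) (τ : Equiv.Perm V) :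
    Finset (Finset V) :=
  G.filter fun e => e.image τ ∉ G ∧ ∃ x ∈ e, τ x ≠ x ∧ τ x ∈ e

/-- The number of edges of Turán's construction on `n` vertices: `k(k-1)(2k-1)`, `k²(2k-1)`,
`k²(2k+1)` for `n = 3k`, `3k+1`, `3k+2`. -/
def turan (n : ℕ) : ℕ :=
  if n % 3 = 0 then (n / 3) * (n / 3 - 1) * (2 * (n / 3) - 1)
  else if n % 3 = 1 then (n / 3) ^ 2 * (2 * (n / 3) - 1)
  else (n / 3) ^ 2 * (2 * (n / 3) + 1)

theorem result :
    -- every covering 3-graph, every weighted family of involutions
    (∀ (V : Type) [Fintype V] [DecidableEq V] (G : Finset (Finset V)), Covering G →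
      ∀ (T : Finset (Equiv.Perm V)) (w : Equiv.Perm V → ℕ) (l : ℕ), (∀ τ ∈ T, τ * τ = 1) →
        (∀ x y : V, x ≠ y → ∑ τ ∈ T.filter (fun τ => τ x = y), w τ ≤ l) →
        ∑ τ ∈ T, w τ * (τ.support.card * (τ.support.card - 2)) ≤
          12 * l * G.card + 4 * ∑ τ ∈ T, w τ * (broken G τ).card) ∧
    -- point reflections of a finite abelian group
    (∀ (A : Type) [AddCommGroup A] [Fintype A] [DecidableEq A] (G : Finset (Finset A)),
      Covering G →
        (Fintype.card A * (Fintype.card A - 1) * (Fintype.card A - 3) ≤
          12 * G.card + 4 * ∑ c : A, (broken G (Equiv.subLeft c)).card) ∧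
        (36 * (∑ c : A, (broken G (Equiv.subLeft c)).card) + 21 * Fintype.card A ≤
          Fintype.card A ^ 3 → turan (Fintype.card A) ≤ G.card) ∧
        ((∀ c : A, ∀ e ∈ G, e.image (fun s => c - s) ∈ G) →
          Fintype.card A * (Fintype.card A - 1) * (Fintype.card A - 3) ≤ 12 * G.card ∧
            turan (Fintype.card A) ≤ G.card)) ∧
    -- groups which are transitive on the pairs of vertices
    (∀ (V : Type) [Fintype V] [DecidableEq V] (G : Finset (Finset V)), Covering G →
      ∀ Γ : Subgroup (Equiv.Perm V), (∀ g ∈ Γ, ∀ e ∈ G, e.image g ∈ G) →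
        (∀ x y x' y' : V, x ≠ y → x' ≠ y' →
          ∃ g ∈ Γ, (g x = x' ∧ g y = y') ∨ (g x = y' ∧ g y = x')) →
        ∀ t ∈ Γ, t * t = 1 →
          Fintype.card V * (Fintype.card V - 1) * (t.support.card - 2) ≤ 12 * G.card ∧
            (Fintype.card V ≤ t.support.card + 1 → turan (Fintype.card V) ≤ G.card)) := by
  refine ⟨?_, ?_, ?_⟩
  · intro V _ _ G hG T w l hT hl
    exact Pool.Agent.H838R3.TuranRefl.general hG.2 hG.1 T hT w l hl
  · intro A _ _ _ G hG
    have h := Pool.Agent.H838R3.TuranRefl.abelian (G := G) hG.2 hG.1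
    refine ⟨h, ?_, ?_⟩
    · intro hB
      exact Pool.Agent.H838R3.TuranRefl.turan_le' _ _ _ h hB
    · intro hinv
      have h0 : ∑ c : A, (Pool.Agent.H838R3.TuranRefl.broken G (Equiv.subLeft c)).card = 0 := by
        apply sum_eq_zero
        intro c _
        rw [card_eq_zero, Pool.Agent.H838R3.TuranRefl.broken, filter_eq_empty_iff]
        rintro e he ⟨h, -⟩
        exact h (hinv c e he)
      rw [h0, mul_zero, add_zero] at h
      refine ⟨h, ?_⟩
      have := (Pool.Agent.H838R3.TuranRefl.turan_le (Fintype.card A)).trans h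
      exact Nat.le_of_mul_le_mul_left this (by norm_num)
  · intro V _ _ G hG Γ hinv h2 t htΓ ht
    have h := Pool.Agent.H838R3.TuranRefl.homog (G := G) hG.2 hG.1 Γ hinv h2 t htΓ ht
    refine ⟨h, ?_⟩
    intro hn
    have h3 : Fintype.card V - 3 ≤ t.support.card - 2 := by omega
    have := ((Pool.Agent.H838R3.TuranRefl.turan_le (Fintype.card V)).trans
      (Nat.mul_le_mul_left _ h3)).trans h
    exact Nat.le_of_mul_le_mul_left this (by norm_num)

end Pool.Agent.Results.MP_466853_co.InvolutiveSymmetries
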