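import Pool.Agent.H37R3.K4.TCFin

/-!
# Turán's `(3,4)`-problem: two conditions on link graphs under which the bound `4/9` holds

`G` is a 3-graph on `n` vertices in which every four vertices contain an edge, and `graphA`,
`graphB` are two 3-graphs on six vertices with eight and seven edges. Then
`4 n⁶ + 18 n⁴ ≤ 54 n³ |G| + 27 n⁵ + 810 (N_A + N_B)`, where `N_A`, `N_B` are the numbers of induced
copies of `graphA` and `graphB` in `G`. Both 3-graphs have a vertex whose link graph contains, as an
induced subgraph, two disjoint edges and an isolated vertex, and a vertex whose link graph contains,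
as an induced subgraph, a 4-cycle and an isolated vertex. So `|G| ≥ (2/27) n³ - n²/2 + n/3` if no
link graph of `G` contains one of these two graphs on five vertices as an induced subgraph.
-/

set_option autoImplicit false
set_option maxRecDepth 100000
open Finset
open scoped Classical

namespace Pool.Agent.Results.MP_466853_co.LinkConditions

/-- Every four vertices contain an edge of the 3-graph `G`. -/
def CoversQuadruples {n : ℕ} (G : Finset (Finset (Fin n))) : Prop :=
  ∀ S : Finset (Fin n), S.card = 4 → ∃ s ⊆ S, s ∈ G

/-- The set `S` of vertices induces a copy of the 3-graph `F` in `G`: there is a bijection from the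
vertices of `F` to `S` that maps edges to edges and non-edges to non-edges. -/
def Induces {k n : ℕ} (F : Finset (Finset (Fin k))) (G : Finset (Finset (Fin n)))
    (S : Finset (Fin n)) : Prop :=
  ∃ f : Fin k → Fin n, Function.Injective f ∧ univ.image f = S ∧
    ∀ t : Finset (Fin k), t.card = 3 → (t.image f ∈ G ↔ t ∈ F)

/-- The number of sets of vertices which induce a copy of `F` in `G`. -/
noncomputable def copies {k n : ℕ} (F : Finset (Finset (Fin k))) (G : Finset (Finset (Fin n))) : ℕ :=
  ((univ : Finset (Finset (Fin n))).filter fun S => Induces F G S).card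

/-- Some link graph of the 3-graph `G` contains the graph `F` as an induced subgraph: there are a
vertex `v` and an injection `f` from the vertices of `F` to the vertices other than `v` such that a
pair `p` is an edge of `F` if and only if `v` and the image of `p` form an edge of `G`. -/
def LinkInduces {k n : ℕ} (F : Finset (Finset (Fin k))) (G : Finset (Finset (Fin n))) : Prop :=
  ∃ (v : Fin n) (f : Fin k → Fin n), Function.Injective f ∧ (∀ i, f i ≠ v) ∧
    ∀ p : Finset (Fin k), p.card = 2 → (insert v (p.image f) ∈ G ↔ p ∈ F)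

/-- The 3-graph on `0, ..., 5` with edges 123 024 034 025 035 145 245 345. -/
def graphA : Finset (Finset (Fin 6)) :=
  {{1, 2, 3}, {0, 2, 4}, {0, 3, 4}, {0, 2, 5}, {0, 3, 5}, {1, 4, 5}, {2, 4, 5}, {3, 4, 5}}

/-- The 3-graph on `0, ..., 5` with edges 023 124 134 015 235 245 345. -/
def graphB : Finset (Finset (Fin 6)) :=
  {{0, 2, 3}, {1, 2, 4}, {1, 3, 4}, {0, 1, 5}, {2, 3, 5}, {2, 4, 5}, {3, 4, 5}}

/-- Two disjoint edges and an isolated vertex (the complement of the wheel with four spokes). -/
def twoEdges : Finset (Finset (Fin 5)) := {{1, 2}, {3, 4}}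

/-- A 4-cycle and an isolated vertex (the complement of the butterfly: two triangles with one common
vertex). -/
def fourCycle : Finset (Finset (Fin 5)) := {{1, 2}, {2, 3}, {3, 4}, {1, 4}}

theorem img {k n : ℕ} (f : Fin k → Fin n) (t : Finset (Fin k)) :
    @Finset.image _ _ (fun a b => Classical.propDecidable (a = b)) f t =
      @Finset.image _ _ (instDecidableEqFin n) f t := by
  ext v
  simp only [mem_image]

theorem sub_of {n : ℕ} {G : Finset (Finset (Fin n))} {F : Finset (Finset (Fin 6))}
    {X : Finset (Finset (Fin 5))} (v : Fin 6) (g : Fin 5 → Fin 6) (hg : Function.Injective g)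
    (hgv : ∀ i, g i ≠ v)
    (hX : ∀ p : Finset (Fin 5), p.card = 2 → (insert v (p.image g) ∈ F ↔ p ∈ X))
    (hc : ∀ p : Finset (Fin 5), p.card = 2 → (insert v (p.image g)).card = 3)
    (h : ¬ LinkInduces X G) : copies F G = 0 := by
  unfold copies
  rw [card_eq_zero, filter_eq_empty_iff]
  rintro S - ⟨f, hf, -, hfe⟩
  refine h ⟨f v, f ∘ g, hf.comp hg, fun i hi => hgv i (hf hi), ?_⟩
  intro p hp
  rw [← hX p hp, ← hfe _ (hc p hp), image_insert, image_image]

theorem copies_compl {n : ℕ} (F F' : Finset (Finset (Fin 6))) (G : Finset (Finset (Fin n)))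
    (hF : ∀ t : Finset (Fin 6), t.card = 3 → (t ∈ F ↔ t ∉ F')) :
    (((univ : Finset (Fin n)).powersetCard 6).filter fun S =>
      Pool.Agent.H37R3.Cop.Induces F ((univ : Finset (Fin n)).powersetCard 3 \ G) S).card =
      copies F' G := by
  unfold copies
  congr 1
  ext S
  have key : Pool.Agent.H37R3.Cop.Induces F ((univ : Finset (Fin n)).powersetCard 3 \ G) S ↔
      Induces F' G S := by
    unfold Pool.Agent.H37R3.Cop.Induces Induces
    simp only [img]
    refine exists_congr fun f => and_congr_right fun hf => and_congr_right fun _ =>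
      forall_congr' fun t => ?_
    refine imp_congr_right fun ht => ?_
    rw [hF t ht, mem_sdiff, mem_powersetCard, card_image_of_injective _ hf, ht]
    simp only [subset_univ, true_and]
    exact not_iff_not
  rw [mem_filter, mem_filter, mem_powersetCard, key]
  constructor
  · rintro ⟨-, h⟩
    exact ⟨mem_univ _, h⟩
  · rintro ⟨-, h⟩
    refine ⟨⟨subset_univ _, ?_⟩, h⟩
    obtain ⟨f, hf, hS, -⟩ := h
    rw [← hS, card_image_of_injective _ hf]; rfl

theorem choose_three (n : ℕ) : 6 * n.choose 3 + 3 * n ^ 2 = n ^ 3 + 2 * n := by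
  have h2 : ∀ m : ℕ, 2 * m.choose 2 + m = m ^ 2 := by
    intro m
    induction m with
    | zero => rfl
    | succ m ih =>
      rw [Nat.choose_succ_succ' m 1, Nat.choose_one_right]
      nlinarith
  induction n with
  | zero => rfl
  | succ m ih =>
    rw [Nat.choose_succ_succ' m 2]
    have := h2 m
    nlinarith

/-- Let `G` be a 3-graph on `n` vertices in which every four vertices contain an edge. Then
`4 n⁶ + 18 n⁴ ≤ 54 n³ |G| + 27 n⁵ + 810 (N_A + N_B)`, where `N_A` and `N_B` are the numbers of
induced copies of `graphA` and `graphB` in `G`. Moreover `4 n³ + 18 n ≤ 54 |G| + 27 n²` if no link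
graph of `G` contains `twoEdges` as an induced subgraph, and also if no link graph of `G` contains
`fourCycle` as an induced subgraph. -/
theorem result :
    (∀ (n : ℕ) (G : Finset (Finset (Fin n))), (∀ e ∈ G, e.card = 3) → CoversQuadruples G →
      4 * n ^ 6 + 18 * n ^ 4 ≤
        54 * n ^ 3 * G.card + 27 * n ^ 5 + 810 * (copies graphA G + copies graphB G)) ∧
    (∀ (n : ℕ) (G : Finset (Finset (Fin n))), (∀ e ∈ G, e.card = 3) → CoversQuadruples G →
      (¬ LinkInduces twoEdges G ∨ ¬ LinkInduces fourCycle G) →
        4 * n ^ 3 + 18 * n ≤ 54 * G.card + 27 * n ^ 2) := by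
  have main : ∀ (n : ℕ) (G : Finset (Finset (Fin n))), (∀ e ∈ G, e.card = 3) →
      CoversQuadruples G → 4 * n ^ 6 + 18 * n ^ 4 ≤
        54 * n ^ 3 * G.card + 27 * n ^ 5 + 810 * (copies graphA G + copies graphB G) := by
    intro n G h3 hK
    rcases Nat.eq_zero_or_pos n with rfl | hn
    · simp
    · have hG : G ⊆ (univ : Finset (Fin n)).powersetCard 3 := fun e he =>
        mem_powersetCard.2 ⟨subset_univ _, h3 e he⟩
      have h := Pool.Agent.H37R3.TC.main (V := Fin n)
        (H := (univ : Finset (Fin n)).powersetCard 3 \ G)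
        (fun e he => (mem_powersetCard.1 (mem_sdiff.1 he).1).2)
        (by
          intro S hS
          obtain ⟨s, hs, hsG⟩ := hK S hS
          exact ⟨s, hs, h3 s hsG, fun h => (mem_sdiff.1 h).2 hsG⟩)
        (by rw [Fintype.card_fin]; exact hn)
      rw [Fintype.card_fin, copies_compl _ graphA G (by decide +kernel),
        copies_compl _ graphB G (by decide +kernel)] at h
      have hc : ((univ : Finset (Fin n)).powersetCard 3 \ G).card + G.card = n.choose 3 := by
        rw [card_sdiff_add_card_eq_card hG, card_powersetCard, card_univ, Fintype.card_fin]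
      have hc3 := choose_three n
      rw [← hc] at hc3
      have h5 : n ^ 3 * (6 * (((univ : Finset (Fin n)).powersetCard 3 \ G).card + G.card) +
          3 * n ^ 2) = n ^ 3 * (n ^ 3 + 2 * n) := by rw [hc3]
      nlinarith
  refine ⟨main, ?_⟩
  intro n G h3 hK hX
  rcases Nat.eq_zero_or_pos n with rfl | hn
  · simp
  · have h := main n G h3 hK
    have h0 : copies graphA G = 0 ∧ copies graphB G = 0 := by
      rcases hX with hX | hX
      · exact ⟨sub_of 1 ![0, 2, 3, 4, 5] (by decide) (by decide) (by decide +kernel)
            (by decide +kernel) hX,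
          sub_of 0 ![4, 2, 3, 1, 5] (by decide) (by decide) (by decide +kernel)
            (by decide +kernel) hX⟩
      · exact ⟨sub_of 0 ![1, 2, 4, 3, 5] (by decide) (by decide) (by decide +kernel)
            (by decide +kernel) hX,
          sub_of 4 ![0, 1, 2, 5, 3] (by decide) (by decide) (by decide +kernel)
            (by decide +kernel) hX⟩
    rw [h0.1, h0.2] at h
    have h1 : n ^ 3 * (4 * n ^ 3 + 18 * n) ≤ n ^ 3 * (54 * G.card + 27 * n ^ 2) := by
      calc n ^ 3 * (4 * n ^ 3 + 18 * n) = 4 * n ^ 6 + 18 * n ^ 4 := by ring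
        _ ≤ 54 * n ^ 3 * G.card + 27 * n ^ 5 + 810 * (0 + 0) := h
        _ = n ^ 3 * (54 * G.card + 27 * n ^ 2) := by ring
    exact Nat.le_of_mul_le_mul_left h1 (by positivity)

end Pool.Agent.Results.MP_466853_co.LinkConditions
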