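import Pool.Agent.H422R3.T34.Final

/-!
# Turán's (3,4)-conjecture for 3-graphs with a free elementary abelian 2-group with three orbits
-/

namespace Pool.Agent.Results.MP_466853_co.ThreeOrbits

open MulAction

/-- `G` is a 3-graph in which every four vertices span an edge. -/
def Covering {V : Type} [DecidableEq V] (G : Finset (Finset V)) : Prop :=
  (∀ e ∈ G, e.card = 3) ∧ ∀ a b c d : V, a ≠ b → a ≠ c → a ≠ d → b ≠ c → b ≠ d → c ≠ d →
    {a, b, c} ∈ G ∨ {a, b, d} ∈ G ∨ {a, c, d} ∈ G ∨ {b, c, d} ∈ G

/-- `H` is a group in which every element has order at most `2`; it acts freely on `V` with exactly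
three orbits, and `G` is invariant under the action. -/
def Symmetric (H V : Type) [Group H] [MulAction H V] [DecidableEq V] (G : Finset (Finset V)) :
    Prop :=
  (∀ a : H, a * a = 1) ∧ (∀ (a : H) (x : V), a • x = x → a = 1) ∧
    Nat.card (orbitRel.Quotient H V) = 3 ∧
    ∀ (a : H) (e : Finset V), e ∈ G → e.image (fun x => a • x) ∈ G

theorem result :
    (∀ (V H : Type) [Fintype V] [DecidableEq V] [Group H] [Fintype H] [MulAction H V]
      (G : Finset (Finset V)), Covering G → Symmetric H V G →
      Fintype.card H * (Fintype.card H - 1) * (2 * Fintype.card H - 1) ≤ G.card) ∧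
    (∀ k : ℕ, ∃ (V H : Type) (_ : Fintype V) (_ : DecidableEq V) (_ : Group H) (_ : Fintype H)
      (_ : MulAction H V) (G : Finset (Finset V)), Fintype.card H = 2 ^ k ∧ Covering G ∧
      Symmetric H V G ∧
      G.card = Fintype.card H * (Fintype.card H - 1) * (2 * Fintype.card H - 1)) := by
  refine ⟨?_, ?_⟩
  · intro V H _ _ _ _ _ G hcov hsym
    exact Pool.Agent.H422R3.T34.lower hsym.1 hsym.2.1 hsym.2.2.1 G hcov.1 hcov.2 hsym.2.2.2
  · intro k
    classical
    have h2 : ∀ a : Multiplicative (Fin k → ZMod 2), a * a = 1 := by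
      intro a
      have : ∀ b : Fin k → ZMod 2, b + b = 0 := by
        intro b
        funext i
        have : ∀ c : ZMod 2, c + c = 0 := by decide
        exact this _
      exact this a.toAdd
    obtain ⟨G, hG1, hG2, hG3, hG4⟩ := Pool.Agent.H422R3.T34.upper (Multiplicative (Fin k → ZMod 2))
    have hsym : Symmetric (Multiplicative (Fin k → ZMod 2))
        (Pool.Agent.H422R3.T34.W (Multiplicative (Fin k → ZMod 2))) G :=
      ⟨h2, fun a x h => Pool.Agent.H422R3.T34.W_free _ a x h,
        Pool.Agent.H422R3.T34.W_orbits _, hG3⟩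
    refine ⟨Pool.Agent.H422R3.T34.W (Multiplicative (Fin k → ZMod 2)),
      Multiplicative (Fin k → ZMod 2), inferInstance, inferInstance, inferInstance, inferInstance,
      inferInstance, G, ?_, ⟨hG1, hG2⟩, hsym, ?_⟩
    · simp [ZMod.card]
    · exact le_antisymm hG4
        (Pool.Agent.H422R3.T34.lower hsym.1 hsym.2.1 hsym.2.2.1 G hG1 hG2 hsym.2.2.2)

end Pool.Agent.Results.MP_466853_co.ThreeOrbits
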